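import Pool.Agent.Helper21.Cut.Defs2

/-!
# Split sums and closed words (for MP_86dbc7_gt)
-/

namespace Pool.Agent.Helper11.CutIns

open Pool.Agent.Helper21.Cut

variable {S R : Type*}

/-! ### sums over splittings -/

section sums

variable [AddCommMonoid R]

/-- the sum of `f A B` over all splittings `W = A ++ B` with `B ≠ []` -/
def spl : List S → (List S → List S → R) → R
  | [], _ => 0
  | a :: W, f => f [] (a :: W) + spl W (fun A B => f (a :: A) B)

/-- the sum of `f A B` over all splittings `W = A ++ B` with `A ≠ []` and `B ≠ []` -/
def spm : List S → (List S → List S → R) → R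
  | [], _ => 0
  | a :: W, f => spl W (fun A B => f (a :: A) B)

theorem sp_eq (W : List S) (f : List S → List S → R) : sp W f = f [] W + spn W f := by
  cases W with
  | nil => simp [sp, spn]
  | cons a W => rfl

theorem spl_eq (a : S) (W : List S) (f : List S → List S → R) :
    spl (a :: W) f = f [] (a :: W) + spm (a :: W) f := rfl

theorem sp_append (A D : List S) (f : List S → List S → R) :
    sp (A ++ D) f = spl A (fun A₁ A₂ => f A₁ (A₂ ++ D)) + sp D (fun D₁ D₂ => f (A ++ D₁) D₂) := by
  induction A generalizing f with
  | nil => simp [spl]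
  | cons a A ih =>
    simp only [List.cons_append, sp, spl, ih, add_assoc]

theorem spn_append {A : List S} (hA : A ≠ []) (D : List S) (f : List S → List S → R) :
    spn (A ++ D) f = spm A (fun A₁ A₂ => f A₁ (A₂ ++ D)) + sp D (fun D₁ D₂ => f (A ++ D₁) D₂) := by
  cases A with
  | nil => exact absurd rfl hA
  | cons a A => simp only [List.cons_append, spn, spm, sp_append]

theorem sp_congr {W : List S} {f g : List S → List S → R}
    (h : ∀ A B, A ++ B = W → f A B = g A B) : sp W f = sp W g := by
  induction W generalizing f g with
  | nil => exact h [] [] rfl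
  | cons a W ih =>
    simp only [sp]
    rw [h [] (a :: W) rfl, ih (fun A B hAB => h (a :: A) B (by simp [hAB]))]

theorem spn_congr {W : List S} {f g : List S → List S → R}
    (h : ∀ A B, A ++ B = W → A ≠ [] → f A B = g A B) : spn W f = spn W g := by
  cases W with
  | nil => rfl
  | cons a W => exact sp_congr fun A B hAB => h (a :: A) B (by simp [hAB]) (by simp)

theorem spl_congr {W : List S} {f g : List S → List S → R}
    (h : ∀ A B, A ++ B = W → B ≠ [] → f A B = g A B) : spl W f = spl W g := by
  induction W generalizing f g with
  | nil => rfl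
  | cons a W ih =>
    simp only [spl]
    rw [h [] (a :: W) rfl (by simp), ih (fun A B hAB hB => h (a :: A) B (by simp [hAB]) hB)]

theorem spm_congr {W : List S} {f g : List S → List S → R}
    (h : ∀ A B, A ++ B = W → A ≠ [] → B ≠ [] → f A B = g A B) : spm W f = spm W g := by
  cases W with
  | nil => rfl
  | cons a W =>
    exact spl_congr fun A B hAB hB => h (a :: A) B (by simp [hAB]) (by simp) hB

theorem spl_zero (W : List S) : spl W (fun _ _ => (0 : R)) = 0 := by
  induction W with
  | nil => rfl
  | cons a W ih => simp [spl, ih]

theorem spm_zero (W : List S) : spm W (fun _ _ => (0 : R)) = 0 := by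
  cases W with
  | nil => rfl
  | cons a W => exact spl_zero W

theorem sp_zero (W : List S) : sp W (fun _ _ => (0 : R)) = 0 := by
  induction W with
  | nil => rfl
  | cons a W ih => simp [sp, ih]

theorem spn_zero (W : List S) : spn W (fun _ _ => (0 : R)) = 0 := by
  cases W with
  | nil => rfl
  | cons a W => exact sp_zero W

theorem sp_add (W : List S) (f g : List S → List S → R) :
    sp W (fun A B => f A B + g A B) = sp W f + sp W g := by
  induction W generalizing f g with
  | nil => rfl
  | cons a W ih =>
    simp only [sp, ih]
    exact add_add_add_comm _ _ _ _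

theorem spn_add (W : List S) (f g : List S → List S → R) :
    spn W (fun A B => f A B + g A B) = spn W f + spn W g := by
  cases W with
  | nil => simp [spn]
  | cons a W => exact sp_add W _ _

theorem sp_ne_zero {W : List S} {f : List S → List S → R} (h : sp W f ≠ 0) :
    ∃ A B, A ++ B = W ∧ f A B ≠ 0 := by
  by_contra hc
  push Not at hc
  exact h ((sp_congr hc).trans (sp_zero W))

theorem spn_ne_zero {W : List S} {f : List S → List S → R} (h : spn W f ≠ 0) :
    ∃ A B, A ++ B = W ∧ A ≠ [] ∧ f A B ≠ 0 := by
  by_contra hc
  push Not at hc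
  exact h ((spn_congr hc).trans (spn_zero W))

end sums

/-! ### ends of lists -/

theorem getLastD_app (A B : List S) (b : S) : (A ++ B).getLastD b = B.getLastD (A.getLastD b) := by
  cases B using List.reverseRecOn with
  | nil => simp
  | append_singleton B z _ => simp [List.getLastD_eq_getLast?]

theorem headD_app (A B : List S) (b : S) : (A ++ B).headD b = A.headD (B.headD b) := by
  cases A <;> simp

theorem getLastD_ne {B : List S} (h : B ≠ []) (x y : S) : B.getLastD x = B.getLastD y := by
  cases B with
  | nil => exact absurd rfl h
  | cons a B => simp only [List.getLastD_cons]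

theorem headD_ne {B : List S} (h : B ≠ []) (x y : S) : B.headD x = B.headD y := by
  cases B with
  | nil => exact absurd rfl h
  | cons a B => rfl

theorem getLastD_mem {B : List S} (h : B ≠ []) (x : S) : B.getLastD x ∈ B := by
  cases B using List.reverseRecOn with
  | nil => exact absurd rfl h
  | append_singleton B z _ => simp [List.getLastD_eq_getLast?]

theorem headD_mem {B : List S} (h : B ≠ []) (x : S) : B.headD x ∈ B := by
  cases B with
  | nil => exact absurd rfl h
  | cons a B => simp

theorem getLastD_mem_cons (A : List S) (b : S) : A.getLastD b ∈ b :: A := by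
  cases A with
  | nil => simp
  | cons a A =>
    exact List.mem_cons_of_mem _ (getLastD_mem (by simp) _)

theorem headD_mem_cons (A : List S) (b : S) : A.headD b ∈ b :: A := by
  cases A <;> simp

/-! ### closed walks -/

variable {adj : S → S → Prop}

theorem chain_app {X Y : List S} (hX : X ≠ []) (hY : Y ≠ []) (b : S) :
    List.IsChain adj (X ++ Y) ↔
      List.IsChain adj X ∧ List.IsChain adj Y ∧ adj (X.getLastD b) (Y.headD b) := by
  rw [List.isChain_append]
  refine and_congr_right fun _ => and_congr_right fun _ => ?_
  cases X using List.reverseRecOn with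
  | nil => exact absurd rfl hX
  | append_singleton X x _ =>
    cases Y with
    | nil => exact absurd rfl hY
    | cons y Y => simp [List.getLastD_eq_getLast?]

theorem validC_iff (b : S) (W : List S) :
    ValidC adj (b :: W) ↔ List.IsChain adj ((b :: W) ++ [b]) := Iff.rfl

theorem validC_iff' {B : List S} (hB : B ≠ []) (b : S) :
    ValidC adj B ↔ List.IsChain adj B ∧ adj (B.getLastD b) (B.headD b) := by
  cases B with
  | nil => exact absurd rfl hB
  | cons y B =>
    rw [validC_iff, chain_app (by simp) (by simp) b]
    simp

/-- the closed word `b A B C`, `B ≠ []` -/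
theorem validC_iff3 (b : S) (A : List S) {B : List S} (hB : B ≠ []) (C : List S) :
    ValidC adj (b :: (A ++ (B ++ C))) ↔
      List.IsChain adj (b :: A) ∧ List.IsChain adj B ∧ List.IsChain adj (C ++ [b]) ∧
        adj (A.getLastD b) (B.headD b) ∧ adj (B.getLastD b) (C.headD b) := by
  have h : (b :: (A ++ (B ++ C))) ++ [b] = (b :: A) ++ (B ++ (C ++ [b])) := by simp
  rw [validC_iff, h, chain_app (by simp) (by simp) b, chain_app hB (by simp) b, headD_app B,
    headD_ne hB _ b, headD_app C]
  simp only [List.getLastD_cons, List.headD_cons]
  tauto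

theorem validC_iff2 (b : S) (A C : List S) :
    ValidC adj (b :: (A ++ C)) ↔
      List.IsChain adj (b :: A) ∧ List.IsChain adj (C ++ [b]) ∧
        adj (A.getLastD b) (C.headD b) := by
  have h : (b :: (A ++ C)) ++ [b] = (b :: A) ++ (C ++ [b]) := by simp
  rw [validC_iff, h, chain_app (by simp) (by simp) b, headD_app C]
  simp only [List.getLastD_cons, List.headD_cons]

/-- cutting a closed walk -/
theorem validC_cut {b : S} {A B C : List S} (hB : B ≠ [])
    (h : ValidC adj (b :: (A ++ (B ++ C)))) (h1 : adj (B.getLastD b) (B.headD b))
    (h2 : adj (A.getLastD b) (C.headD b)) : ValidC adj B ∧ ValidC adj (b :: (A ++ C)) := by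
  rw [validC_iff3 b A hB C] at h
  exact ⟨(validC_iff' hB b).2 ⟨h.2.1, h1⟩, (validC_iff2 b A C).2 ⟨h.1, h.2.2.1, h2⟩⟩

end Pool.Agent.Helper11.CutIns
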