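import Pool.Agent.Helper11.CutIns.Basic

/-!
# Insertion lemma for cut counts (MP_86dbc7_gt, packet Q2)
-/

namespace Pool.Agent.Helper11.CutIns

open Pool.Agent.Helper21.Cut

variable {S R : Type*} [CommRing R]

theorem spl_eq' {M : Type*} [AddCommMonoid M] {W : List S} (hW : W ≠ [])
    (f : List S → List S → M) : spl W f = f [] W + spm W f := by
  cases W with
  | nil => exact absurd rfl hW
  | cons a W => rfl

theorem ne_left {b : S} {X Y Z : List S} (h : (b :: (X ++ (Y ++ Z))).Nodup) {x y : S}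
    (hx : x ∈ b :: X) (hy : y ∈ Y) : x ≠ y := by
  rintro rfl
  rw [← List.cons_append] at h
  exact (List.nodup_append.1 h).2.2 x hx x (List.mem_append_left _ hy) rfl

theorem ne_right {b : S} {X Y Z : List S} (h : (b :: (X ++ (Y ++ Z))).Nodup) {y z : S}
    (hy : y ∈ Y) (hz : z ∈ b :: Z) : y ≠ z := by
  rintro rfl
  rcases List.mem_cons.1 hz with rfl | hz
  · exact (List.nodup_cons.1 h).1 (by simp [hy])
  · have h1 := (List.nodup_append.1 (List.nodup_cons.1 h).2).2.1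
    exact (List.nodup_append.1 h1).2.2 y hy y hz rfl

/-- one term of the sum over the cuts -/
def term (J : S → S → S → S → ℤ) (lam : List S → R) (k : ℕ) (b : S) (A B C : List S) : R :=
  (J (A.getLastD b) (B.headD b) (B.getLastD b) (C.headD b) : R) * lam B * nu J lam k b (A ++ C)

theorem nu_succ (J : S → S → S → S → ℤ) (lam : List S → R) (k : ℕ) (b : S) (W : List S) :
    nu J lam (k + 1) b W = sp W fun A D => spn D fun B C => term J lam k b A B C := rfl

section low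

variable {J : S → S → S → S → ℤ} {adj : S → S → Prop} {lam : List S → R} {len : List S → ℝ}
  {ρ κ : ℝ}

/-- a nonzero crossing number of a cut makes the two pieces closed walks -/
theorem valid_of_J (hJ : ∀ a b c d, J a b c d ≠ 0 → adj a b ∧ adj c d ∧ adj a d ∧ adj c b)
    {b : S} {A B C : List S} (hB : B ≠ []) (h : ValidC adj (b :: (A ++ (B ++ C))))
    (hj : J (A.getLastD b) (B.headD b) (B.getLastD b) (C.headD b) ≠ 0) :
    ValidC adj B ∧ ValidC adj (b :: (A ++ C)) :=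
  validC_cut hB h (hJ _ _ _ _ hj).2.2.2 (hJ _ _ _ _ hj).2.2.1

theorem low (hρκ : 0 ≤ ρ + κ)
    (hJ : ∀ a b c d, J a b c d ≠ 0 → adj a b ∧ adj c d ∧ adj a d ∧ adj c b)
    (hlow : ∀ B, lam B ≠ 0 → ρ + κ ≤ len B)
    (hcut : ∀ b A B C, B ≠ [] → ValidC adj (b :: (A ++ (B ++ C))) →
      J (A.getLastD b) (B.headD b) (B.getLastD b) (C.headD b) ≠ 0 →
      len B + len (b :: (A ++ C)) ≤ len (b :: (A ++ (B ++ C)))) :
    ∀ (k : ℕ) (b : S) (W : List S), ValidC adj (b :: W) → nu J lam k b W ≠ 0 →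
      ρ + κ ≤ len (b :: W) := by
  intro k
  induction k with
  | zero => intro b W _ h; exact hlow _ h
  | succ k ih =>
    intro b W hv h
    rw [nu_succ] at h
    obtain ⟨A, D, hAD, h'⟩ := sp_ne_zero h
    obtain ⟨B, C, hBC, hB, h''⟩ := spn_ne_zero h'
    subst hBC
    subst hAD
    have h1 : J (A.getLastD b) (B.headD b) (B.getLastD b) (C.headD b) ≠ 0 := by
      intro h0; apply h''; simp only [term, h0, Int.cast_zero, zero_mul]
    have h2 : lam B ≠ 0 := by intro h0; apply h''; simp only [term, h0, mul_zero, zero_mul]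
    have h3 : nu J lam k b (A ++ C) ≠ 0 := by intro h0; apply h''; simp only [term, h0, mul_zero]
    have hv' := valid_of_J hJ hB hv h1
    have := ih b (A ++ C) hv'.2 h3
    have := hlow B h2
    have := hcut b A B C hB hv h1
    linarith

end low

theorem nu_insert {S R : Type*} [CommRing R] (J : S → S → S → S → ℤ) (adj : S → S → Prop) (lam : List S → R)
    (len : List S → ℝ) (ρ κ Lt : ℝ) (hρ : 0 ≤ ρ) (hκ : 0 ≤ κ)
    (hadj : ∀ a b c d, adj a b → adj c b → adj c d → adj a d)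
    (hJ : ∀ a b c d, J a b c d ≠ 0 → adj a b ∧ adj c d ∧ adj a d ∧ adj c b)
    (hlow : ∀ B, lam B ≠ 0 → ρ + κ ≤ len B)
    (hcut : ∀ b A B C, B ≠ [] → ValidC adj (b :: (A ++ (B ++ C))) →
      J (A.getLastD b) (B.headD b) (B.getLastD b) (C.headD b) ≠ 0 →
      len B + len (b :: (A ++ C)) ≤ len (b :: (A ++ (B ++ C))))
    (t : S) (T : List S) (hTv : ValidC adj (t :: T))
    (hgap : ∀ T₁ T₂ s s', (t :: T) ++ [t] = T₁ ++ s :: s' :: T₂ →
      ∀ c d, c ≠ s → d ≠ s' → J s s' c d = 0 ∧ J c d s s' = 0)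
    (hadd : ∀ a c x y, adj a t → adj (T.getLastD t) c → x ≠ a → x ≠ T.getLastD t → y ≠ t → y ≠ c →
      J a t x y + J (T.getLastD t) c x y = J a c x y ∧
      J x y a t + J x y (T.getLastD t) c = J x y a c)
    (hlam0 : lam (t :: T) = 0)
    (hlen : ∀ A C, A ++ C ≠ [] → ValidC adj (A ++ (t :: T) ++ C) →
      len (A ++ (t :: T) ++ C) ≤ len (A ++ C) + κ ∧ len (A ++ C) ≤ len (A ++ (t :: T) ++ C) + κ)
    (hlam : ∀ A C, A ++ C ≠ [] → ValidC adj (A ++ (t :: T) ++ C) →
      len (A ++ (t :: T) ++ C) ≤ Lt - ρ → len (A ++ C) ≤ Lt - ρ →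
      lam (A ++ (t :: T) ++ C) = lam (A ++ C)) :
    ∀ (k : ℕ) (b : S) (A C : List S), (b :: (A ++ (t :: T) ++ C)).Nodup →
      ValidC adj (b :: (A ++ (t :: T) ++ C)) →
      len (b :: (A ++ (t :: T) ++ C)) ≤ Lt → len (b :: (A ++ C)) ≤ Lt →
      (k = 0 → len (b :: (A ++ (t :: T) ++ C)) ≤ Lt - ρ ∧ len (b :: (A ++ C)) ≤ Lt - ρ) →
      nu J lam k b (A ++ (t :: T) ++ C) = nu J lam k b (A ++ C) := by
  have hρκ : 0 ≤ ρ + κ := by linarith
  have hLOW := low (J := J) (adj := adj) (lam := lam) (len := len) hρκ hJ hlow hcut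
  -- abbreviation for the inserted word
  obtain ⟨Θ, hΘ⟩ : ∃ Θ : List S, Θ = t :: T := ⟨_, rfl⟩
  have hΘne : Θ ≠ [] := by rw [hΘ]; simp
  have hΘlast : ∀ x, Θ.getLastD x = T.getLastD t := by intro x; rw [hΘ, List.getLastD_cons]
  have hΘhead : ∀ x, Θ.headD x = t := by intro x; rw [hΘ]; simp
  rw [← hΘ] at hTv hlam0
  simp only [← hΘ, List.append_assoc] at hgap hlen hlam ⊢
  intro k
  induction k with
  | zero =>
    intro b A C _ hv _ _ h0
    exact hlam (b :: A) C (by simp) hv (h0 rfl).1 (h0 rfl).2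
  | succ k ih =>
    intro b A₀ C₀ hnd hv hl1 hl2 _
    -- adjacency facts
    have hv3 := (validC_iff3 b A₀ hΘne C₀).1 hv
    have hat : adj (A₀.getLastD b) t := by
      have := hv3.2.2.2.1; rwa [hΘhead] at this
    have htc : adj (T.getLastD t) (C₀.headD b) := by
      have := hv3.2.2.2.2; rwa [hΘlast] at this
    have hclosed : adj (T.getLastD t) t := by
      have := ((validC_iff' hΘne b).1 hTv).2
      rwa [hΘhead, hΘlast] at this
    have hac : adj (A₀.getLastD b) (C₀.headD b) := hadj _ _ _ _ hat hclosed htc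
    have hv0 : ValidC adj (b :: (A₀ ++ C₀)) :=
      (validC_iff2 b A₀ C₀).2 ⟨hv3.1, hv3.2.2.1, hac⟩
    -- inner gaps
    have hinner : ∀ Θ₁ Θ₂ : List S, Θ₁ ++ Θ₂ = Θ → Θ₁ ≠ [] → Θ₂ ≠ [] → ∀ x y c d,
        c ≠ Θ₁.getLastD x → d ≠ Θ₂.headD y →
        J (Θ₁.getLastD x) (Θ₂.headD y) c d = 0 ∧ J c d (Θ₁.getLastD x) (Θ₂.headD y) = 0 := by
      intro Θ₁ Θ₂ h h1 h2 x y c d hc hd
      obtain ⟨T₁, s, rfl⟩ : ∃ T₁ s, Θ₁ = T₁ ++ [s] := by
        cases Θ₁ using List.reverseRecOn with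
        | nil => exact absurd rfl h1
        | append_singleton L z _ => exact ⟨L, z, rfl⟩
      obtain ⟨s', T₂, rfl⟩ : ∃ s' T₂, Θ₂ = s' :: T₂ := by
        cases Θ₂ with
        | nil => exact absurd rfl h2
        | cons a L => exact ⟨a, L, rfl⟩
      have e1 : (T₁ ++ [s]).getLastD x = s := by rw [getLastD_app]; simp
      rw [e1] at hc ⊢
      simp only [List.headD_cons] at hd ⊢
      refine hgap T₁ (T₂ ++ [t]) s s' ?_ c d hc hd
      rw [← h]; simp
    -- the two kinds of threshold arguments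
    -- (R) : the inserted word is in the root
    have hR : ∀ A C B : List S, len B + len (b :: (A ++ (Θ ++ C))) ≤ Lt → ρ + κ ≤ len B →
        (b :: (A ++ (Θ ++ C))).Nodup → ValidC adj (b :: (A ++ (Θ ++ C))) →
        len (b :: (A ++ C)) ≤ Lt - ρ →
        nu J lam k b (A ++ (Θ ++ C)) = nu J lam k b (A ++ C) := by
      intro A C B h1 h2 h3 h4 h5
      exact ih b A C h3 h4 (by linarith) (by linarith) fun _ => ⟨by linarith, h5⟩
    -- cuts of the two words
    have hW : ∀ A B C : List S, A ++ (B ++ C) = A₀ ++ (Θ ++ C₀) → B ≠ [] →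
        J (A.getLastD b) (B.headD b) (B.getLastD b) (C.headD b) ≠ 0 →
        ValidC adj B ∧ ValidC adj (b :: (A ++ C)) ∧ len B + len (b :: (A ++ C)) ≤ Lt ∧
          (b :: (A ++ C)).Nodup := by
      intro A B C h hB hj
      rw [← h] at hv hl1 hnd
      have h1 := valid_of_J hJ hB hv hj
      refine ⟨h1.1, h1.2, (hcut b A B C hB hv hj).trans hl1, ?_⟩
      exact hnd.sublist (((List.sublist_append_right B C).append_left A).cons_cons b)
    have hnd0 : (b :: (A₀ ++ C₀)).Nodup :=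
      hnd.sublist (((List.sublist_append_right Θ C₀).append_left A₀).cons_cons b)
    have hW0 : ∀ A B C : List S, A ++ (B ++ C) = A₀ ++ C₀ → B ≠ [] →
        J (A.getLastD b) (B.headD b) (B.getLastD b) (C.headD b) ≠ 0 →
        ValidC adj B ∧ ValidC adj (b :: (A ++ C)) ∧ len B + len (b :: (A ++ C)) ≤ Lt ∧
          (b :: (A ++ C)).Nodup := by
      intro A B C h hB hj
      rw [← h] at hv0 hl2 hnd0
      have h1 := valid_of_J hJ hB hv0 hj
      refine ⟨h1.1, h1.2, (hcut b A B C hB hv0 hj).trans hl2, ?_⟩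
      exact hnd0.sublist (((List.sublist_append_right B C).append_left A).cons_cons b)
    have hhd : ∀ (X Y : List S), X ≠ [] → (X ++ Y).headD b = X.headD b := by
      intro X Y hX; rw [headD_app, headD_ne hX]
    have hlt : ∀ (X Y : List S), Y ≠ [] → (X ++ Y).getLastD b = Y.getLastD b := by
      intro X Y hY; rw [getLastD_app, getLastD_ne hY]
    -- (1a) both gaps in `A₀`
    have h1a : ∀ A₁ A₂ B₁ A₃ : List S, A₁ ++ A₂ = A₀ → B₁ ++ A₃ = A₂ → B₁ ≠ [] → A₃ ≠ [] →
        term J lam k b A₁ B₁ (A₃ ++ (Θ ++ C₀)) = term J lam k b A₁ B₁ (A₃ ++ C₀) := by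
      intro A₁ A₂ B₁ A₃ e1 e2 hB₁ hA₃
      have e3 : A₁ ++ (B₁ ++ (A₃ ++ (Θ ++ C₀))) = A₀ ++ (Θ ++ C₀) := by
        rw [← e1, ← e2]; simp
      have e4 : A₁ ++ (B₁ ++ (A₃ ++ C₀)) = A₀ ++ C₀ := by rw [← e1, ← e2]; simp
      simp only [term, hhd _ _ hA₃]
      by_cases hj : J (A₁.getLastD b) (B₁.headD b) (B₁.getLastD b) (A₃.headD b) = 0
      · simp only [hj, Int.cast_zero, zero_mul]
      by_cases hl : lam B₁ = 0
      · simp only [hl, mul_zero, zero_mul]
      have g1 := hW _ _ _ e3 hB₁ (by rwa [hhd _ _ hA₃])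
      have g2 := hW0 _ _ _ e4 hB₁ (by rwa [hhd _ _ hA₃])
      have g3 := hlow _ hl
      have := hR (A₁ ++ A₃) C₀ B₁ (by simpa using g1.2.2.1) g3 (by simpa using g1.2.2.2)
        (by simpa using g1.2.1) (by have := g2.2.2.1; simp only [List.append_assoc]; linarith)
      simp only [List.append_assoc] at this
      rw [this]
    -- (1b) one gap in `A₀`, the other one in `C₀`
    have h1b : ∀ A₁ A₂ C₁ C₂ : List S, A₁ ++ A₂ = A₀ → C₁ ++ C₂ = C₀ → A₂ ≠ [] → C₁ ≠ [] →
        term J lam k b A₁ (A₂ ++ (Θ ++ C₁)) C₂ = term J lam k b A₁ (A₂ ++ C₁) C₂ := by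
      intro A₁ A₂ C₁ C₂ e1 e2 hA₂ hC₁
      have e3 : A₁ ++ ((A₂ ++ (Θ ++ C₁)) ++ C₂) = A₀ ++ (Θ ++ C₀) := by
        rw [← e1, ← e2]; simp
      have e4 : A₁ ++ ((A₂ ++ C₁) ++ C₂) = A₀ ++ C₀ := by rw [← e1, ← e2]; simp
      have f1 : (A₂ ++ (Θ ++ C₁)).headD b = A₂.headD b := hhd _ _ hA₂
      have f2 : (A₂ ++ C₁).headD b = A₂.headD b := hhd _ _ hA₂
      have f3 : (A₂ ++ (Θ ++ C₁)).getLastD b = C₁.getLastD b := by
        rw [← List.append_assoc]; exact hlt _ _ hC₁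
      have f4 : (A₂ ++ C₁).getLastD b = C₁.getLastD b := hlt _ _ hC₁
      simp only [term, f1, f2, f3, f4]
      by_cases hj : J (A₁.getLastD b) (A₂.headD b) (C₁.getLastD b) (C₂.headD b) = 0
      · simp only [hj, Int.cast_zero, zero_mul]
      by_cases hn : nu J lam k b (A₁ ++ C₂) = 0
      · simp only [hn, mul_zero]
      have g1 := hW _ _ _ e3 (by simp [hA₂]) (by rwa [f1, f3])
      have g2 := hW0 _ _ _ e4 (by simp [hA₂]) (by rwa [f2, f4])
      have g3 := hLOW k b _ g1.2.1 hn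
      rw [hlam A₂ C₁ (by simp [hA₂]) g1.1 (by linarith [g1.2.2.1]) (by linarith [g2.2.2.1])]
    -- (1c) both gaps in `C₀`
    have h1c : ∀ C₁ D B C₃ : List S, C₁ ++ D = C₀ → B ++ C₃ = D → C₁ ≠ [] → B ≠ [] →
        term J lam k b (A₀ ++ (Θ ++ C₁)) B C₃ = term J lam k b (A₀ ++ C₁) B C₃ := by
      intro C₁ D B C₃ e1 e2 hC₁ hB
      have e3 : (A₀ ++ (Θ ++ C₁)) ++ (B ++ C₃) = A₀ ++ (Θ ++ C₀) := by
        rw [← e1, ← e2]; simp
      have e4 : (A₀ ++ C₁) ++ (B ++ C₃) = A₀ ++ C₀ := by rw [← e1, ← e2]; simp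
      have f3 : (A₀ ++ (Θ ++ C₁)).getLastD b = C₁.getLastD b := by
        rw [← List.append_assoc]; exact hlt _ _ hC₁
      have f4 : (A₀ ++ C₁).getLastD b = C₁.getLastD b := hlt _ _ hC₁
      simp only [term, f3, f4]
      by_cases hj : J (C₁.getLastD b) (B.headD b) (B.getLastD b) (C₃.headD b) = 0
      · simp only [hj, Int.cast_zero, zero_mul]
      by_cases hl : lam B = 0
      · simp only [hl, mul_zero, zero_mul]
      have g1 := hW _ _ _ e3 hB (by rwa [f3])
      have g2 := hW0 _ _ _ e4 hB (by rwa [f4])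
      have g3 := hlow _ hl
      have := hR A₀ (C₁ ++ C₃) B (by simpa using g1.2.2.1) g3 (by simpa using g1.2.2.2)
        (by simpa using g1.2.1)
        (by have := g2.2.2.1; simp only [List.append_assoc] at this; linarith)
      simp only [List.append_assoc] at this ⊢
      rw [this]
    -- (2) first gap in `A₀`, second gap at a junction
    have h2 : ∀ A₁ A₂ : List S, A₁ ++ A₂ = A₀ → A₂ ≠ [] →
        term J lam k b A₁ A₂ (Θ ++ C₀) + term J lam k b A₁ (A₂ ++ Θ) C₀ =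
          term J lam k b A₁ A₂ C₀ := by
      intro A₁ A₂ e1 hA₂
      have ea : A₁ ++ (A₂ ++ (Θ ++ C₀)) = A₀ ++ (Θ ++ C₀) := by rw [← e1]; simp
      have eb : A₁ ++ ((A₂ ++ Θ) ++ C₀) = A₀ ++ (Θ ++ C₀) := by rw [← e1]; simp
      have n1 := hnd
      rw [← ea] at n1
      have n2 := hnd
      rw [← eb] at n2
      have f1 : (Θ ++ C₀).headD b = t := by rw [hhd _ _ hΘne, hΘhead]
      have f2 : (A₂ ++ Θ).headD b = A₂.headD b := hhd _ _ hA₂
      have f3 : (A₂ ++ Θ).getLastD b = T.getLastD t := by rw [hlt _ _ hΘne, hΘlast]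
      have f4 : A₀.getLastD b = A₂.getLastD b := by rw [← e1, hlt _ _ hA₂]
      rw [f4] at hat
      have hTm : T.getLastD t ∈ Θ := by rw [hΘ]; exact getLastD_mem_cons T t
      have htm : t ∈ Θ := by rw [hΘ]; simp
      have d1 : A₁.getLastD b ≠ A₂.getLastD b :=
        ne_left n1 (getLastD_mem_cons A₁ b) (getLastD_mem hA₂ b)
      have d2 : A₁.getLastD b ≠ T.getLastD t :=
        ne_left n2 (getLastD_mem_cons A₁ b) (List.mem_append_right _ hTm)
      have d3 : A₂.headD b ≠ t :=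
        ne_right n1 (headD_mem hA₂ b) (List.mem_cons_of_mem _ (List.mem_append_left _ htm))
      have d4 : A₂.headD b ≠ C₀.headD b := by
        refine ne_right n2 (List.mem_append_left _ (headD_mem hA₂ b)) (headD_mem_cons C₀ b)
      have hs := (hadd _ _ _ _ hat htc d1 d2 d3 d4).2
      simp only [term, f1, f2, f3]
      have c1 : (J (A₁.getLastD b) (A₂.headD b) (A₂.getLastD b) t : R) * lam A₂ *
          nu J lam k b (A₁ ++ (Θ ++ C₀)) =
          (J (A₁.getLastD b) (A₂.headD b) (A₂.getLastD b) t : R) *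
            (lam A₂ * nu J lam k b (A₁ ++ C₀)) := by
        by_cases hj : J (A₁.getLastD b) (A₂.headD b) (A₂.getLastD b) t = 0
        · simp only [hj, Int.cast_zero, zero_mul]
        by_cases hl : lam A₂ = 0
        · simp only [hl, mul_zero, zero_mul]
        have g1 := hW _ _ _ ea hA₂ (by rwa [f1])
        have g3 := hlow _ hl
        have g4 := (hlen (b :: A₁) C₀ (by simp) g1.2.1).2
        simp only [List.cons_append] at g4
        rw [hR A₁ C₀ A₂ g1.2.2.1 g3 g1.2.2.2 g1.2.1 (by linarith [g1.2.2.1])]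
        ring
      have c2 : (J (A₁.getLastD b) (A₂.headD b) (T.getLastD t) (C₀.headD b) : R) *
          lam (A₂ ++ Θ) * nu J lam k b (A₁ ++ C₀) =
          (J (A₁.getLastD b) (A₂.headD b) (T.getLastD t) (C₀.headD b) : R) *
            (lam A₂ * nu J lam k b (A₁ ++ C₀)) := by
        by_cases hj : J (A₁.getLastD b) (A₂.headD b) (T.getLastD t) (C₀.headD b) = 0
        · simp only [hj, Int.cast_zero, zero_mul]
        by_cases hn : nu J lam k b (A₁ ++ C₀) = 0
        · simp only [hn, mul_zero]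
        have g1 := hW _ _ _ eb (by simp [hA₂]) (by rwa [f2, f3])
        have g3 := hLOW k b _ g1.2.1 hn
        have g4 := (hlen A₂ [] (by simp [hA₂]) (by simpa using g1.1)).2
        have g5 := hlam A₂ [] (by simp [hA₂]) (by simpa using g1.1)
        simp only [List.append_nil] at g4 g5
        rw [g5 (by linarith [g1.2.2.1]) (by linarith [g1.2.2.1])]
        ring
      rw [c1, c2, ← add_mul, ← Int.cast_add, hs, mul_assoc]
    -- (3) first gap at a junction, second gap in `C₀`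
    have h3 : ∀ C₁ C₂ : List S, C₁ ++ C₂ = C₀ → C₁ ≠ [] →
        term J lam k b A₀ (Θ ++ C₁) C₂ + term J lam k b (A₀ ++ Θ) C₁ C₂ =
          term J lam k b A₀ C₁ C₂ := by
      intro C₁ C₂ e1 hC₁
      have ea : A₀ ++ ((Θ ++ C₁) ++ C₂) = A₀ ++ (Θ ++ C₀) := by rw [← e1]; simp
      have eb : (A₀ ++ Θ) ++ (C₁ ++ C₂) = A₀ ++ (Θ ++ C₀) := by rw [← e1]; simp
      have n1 := hnd
      rw [← ea] at n1
      have n2 := hnd
      rw [← eb] at n2
      have f1 : (Θ ++ C₁).headD b = t := by rw [hhd _ _ hΘne, hΘhead]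
      have f2 : (Θ ++ C₁).getLastD b = C₁.getLastD b := hlt _ _ hC₁
      have f3 : (A₀ ++ Θ).getLastD b = T.getLastD t := by rw [hlt _ _ hΘne, hΘlast]
      have f4 : C₀.headD b = C₁.headD b := by rw [← e1, hhd _ _ hC₁]
      rw [f4] at htc
      have hTm : T.getLastD t ∈ Θ := by rw [hΘ]; exact getLastD_mem_cons T t
      have htm : t ∈ Θ := by rw [hΘ]; simp
      have d1 : C₁.getLastD b ≠ A₀.getLastD b :=
        (ne_left n1 (getLastD_mem_cons A₀ b) (List.mem_append_right _ (getLastD_mem hC₁ b))).symm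
      have d2 : C₁.getLastD b ≠ T.getLastD t :=
        (ne_left n2 (List.mem_cons_of_mem _ (List.mem_append_right _ hTm))
          (getLastD_mem hC₁ b)).symm
      have d3 : C₂.headD b ≠ t :=
        (ne_right n1 (List.mem_append_left _ htm) (headD_mem_cons C₂ b)).symm
      have d4 : C₂.headD b ≠ C₁.headD b :=
        (ne_right n2 (headD_mem hC₁ b) (headD_mem_cons C₂ b)).symm
      have hs := (hadd _ _ _ _ hat htc d1 d2 d3 d4).1
      simp only [term, f1, f2, f3]
      have c1 : (J (A₀.getLastD b) t (C₁.getLastD b) (C₂.headD b) : R) * lam (Θ ++ C₁) *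
          nu J lam k b (A₀ ++ C₂) =
          (J (A₀.getLastD b) t (C₁.getLastD b) (C₂.headD b) : R) *
            (lam C₁ * nu J lam k b (A₀ ++ C₂)) := by
        by_cases hj : J (A₀.getLastD b) t (C₁.getLastD b) (C₂.headD b) = 0
        · simp only [hj, Int.cast_zero, zero_mul]
        by_cases hn : nu J lam k b (A₀ ++ C₂) = 0
        · simp only [hn, mul_zero]
        have g1 := hW _ _ _ ea (by simp [hΘne]) (by rwa [f1, f2])
        have g3 := hLOW k b _ g1.2.1 hn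
        have g4 := (hlen [] C₁ (by simp [hC₁]) (by simpa using g1.1)).2
        have g5 := hlam [] C₁ (by simp [hC₁]) (by simpa using g1.1)
        simp only [List.nil_append] at g4 g5
        rw [g5 (by linarith [g1.2.2.1]) (by linarith [g1.2.2.1])]
        ring
      have c2 : (J (T.getLastD t) (C₁.headD b) (C₁.getLastD b) (C₂.headD b) : R) *
          lam C₁ * nu J lam k b ((A₀ ++ Θ) ++ C₂) =
          (J (T.getLastD t) (C₁.headD b) (C₁.getLastD b) (C₂.headD b) : R) *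
            (lam C₁ * nu J lam k b (A₀ ++ C₂)) := by
        by_cases hj : J (T.getLastD t) (C₁.headD b) (C₁.getLastD b) (C₂.headD b) = 0
        · simp only [hj, Int.cast_zero, zero_mul]
        by_cases hl : lam C₁ = 0
        · simp only [hl, mul_zero, zero_mul]
        have g1 := hW _ _ _ eb hC₁ (by rwa [f3])
        simp only [List.append_assoc] at g1 ⊢
        have g3 := hlow _ hl
        have g4 := (hlen (b :: A₀) C₂ (by simp) g1.2.1).2
        simp only [List.cons_append] at g4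
        rw [hR A₀ C₂ C₁ g1.2.2.1 g3 g1.2.2.2 g1.2.1 (by linarith [g1.2.2.1])]
        ring
      rw [c1, c2, ← add_mul, ← Int.cast_add, hs, mul_assoc]
    -- inner gaps
    have h4 : ∀ A₁ A₂ Θ₁ Θ₂ : List S, A₁ ++ A₂ = A₀ → Θ₁ ++ Θ₂ = Θ → Θ₁ ≠ [] → Θ₂ ≠ [] →
        term J lam k b A₁ (A₂ ++ Θ₁) (Θ₂ ++ C₀) = 0 := by
      intro A₁ A₂ Θ₁ Θ₂ e1 e2 hn1 hn2
      have n1 := hnd
      have ea : A₁ ++ ((A₂ ++ Θ₁) ++ (Θ₂ ++ C₀)) = A₀ ++ (Θ ++ C₀) := by rw [← e1, ← e2]; simp
      rw [← ea] at n1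
      have d1 : A₁.getLastD b ≠ Θ₁.getLastD b :=
        ne_left n1 (getLastD_mem_cons A₁ b) (List.mem_append_right _ (getLastD_mem hn1 b))
      have d2 : (A₂ ++ Θ₁).headD b ≠ Θ₂.headD b :=
        ne_right n1 (headD_mem (by simp [hn1]) b)
          (List.mem_cons_of_mem _ (List.mem_append_left _ (headD_mem hn2 b)))
      have := (hinner Θ₁ Θ₂ e2 hn1 hn2 b b _ _ d1 d2).2
      simp only [term, hlt _ _ hn1, hhd _ _ hn2, this, Int.cast_zero, zero_mul]
    have h5 : ∀ Θ₁ Θ₂ B C : List S, Θ₁ ++ Θ₂ = Θ → Θ₁ ≠ [] → Θ₂ ≠ [] → B ++ C = Θ₂ ++ C₀ →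
        B ≠ [] → term J lam k b (A₀ ++ Θ₁) B C = 0 := by
      intro Θ₁ Θ₂ B C e2 hn1 hn2 e3 hB
      have n1 := hnd
      have ea : (A₀ ++ Θ₁) ++ (B ++ C) = A₀ ++ (Θ ++ C₀) := by rw [e3, ← e2]; simp
      rw [← ea] at n1
      have f1 : B.headD b = Θ₂.headD b := by
        rw [← hhd B C hB, e3, hhd _ _ hn2]
      have d1 : B.getLastD b ≠ Θ₁.getLastD b :=
        (ne_left n1 (List.mem_cons_of_mem _ (List.mem_append_right _ (getLastD_mem hn1 b)))
          (getLastD_mem hB b)).symm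
      have d2 : C.headD b ≠ Θ₂.headD b := by
        rw [← f1]
        exact (ne_right n1 (headD_mem hB b) (headD_mem_cons C b)).symm
      have := (hinner Θ₁ Θ₂ e2 hn1 hn2 b b _ _ d1 d2).1
      simp only [term, hlt _ _ hn1, f1, this, Int.cast_zero, zero_mul]
    -- summation
    rw [nu_succ, nu_succ, sp_append A₀ (Θ ++ C₀), sp_append A₀ C₀]
    congr 1
    · refine spl_congr fun A₁ A₂ e1 hA₂ => ?_
      rw [spn_append hA₂, spn_append hA₂, sp_append Θ C₀, spl_eq' hΘne, sp_eq C₀, sp_eq C₀,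
        spm_congr (W := Θ) (g := fun _ _ => 0)
          (fun Θ₁ Θ₂ e2 hn1 hn2 => h4 A₁ A₂ Θ₁ Θ₂ e1 e2 hn1 hn2), spm_zero,
        spm_congr (W := A₂) (fun B A₃ e2 hn1 hn2 => h1a A₁ A₂ B A₃ e1 e2 hn1 hn2),
        spn_congr (W := C₀) (fun C₁ C₂ e2 hn1 => h1b A₁ A₂ C₁ C₂ e1 e2 hA₂ hn1)]
      simp only [List.append_nil, add_zero]
      rw [← h2 A₁ A₂ e1 hA₂]
      abel
    · rw [sp_append Θ C₀, spl_eq' hΘne, sp_eq C₀, sp_eq C₀,
        spm_congr (W := Θ) (g := fun _ _ => 0)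
          (fun Θ₁ Θ₂ e2 hn1 hn2 =>
            (spn_congr fun B C e3 hB => h5 Θ₁ Θ₂ B C e2 hn1 hn2 e3 hB).trans (spn_zero _)),
        spm_zero, spn_append hΘne, sp_eq C₀,
        spm_congr (W := Θ) (g := fun _ _ => 0)
          (fun Θ₁ Θ₂ e2 hn1 hn2 => by
            rw [List.append_nil]
            exact h4 A₀ [] Θ₁ Θ₂ (by simp) e2 hn1 hn2), spm_zero,
        spn_congr (W := C₀) (f := fun D₁ D₂ => spn D₂ fun B C => term J lam k b (A₀ ++ (Θ ++ D₁)) B C)
          (g := fun D₁ D₂ => spn D₂ fun B C => term J lam k b (A₀ ++ D₁) B C)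
          (fun D₁ D₂ e2 hn1 => spn_congr fun B C e3 hB => h1c D₁ D₂ B C e2 e3 hn1 hB)]
      have h0 : term J lam k b (A₀ ++ []) (Θ ++ []) C₀ = 0 := by
        simp only [term, List.append_nil, hlam0, mul_zero, zero_mul]
      have h6 : spn C₀ (fun C₁ C₂ => term J lam k b A₀ (Θ ++ C₁) C₂) +
          spn C₀ (fun C₁ C₂ => term J lam k b (A₀ ++ Θ) C₁ C₂) =
          spn C₀ (fun C₁ C₂ => term J lam k b A₀ C₁ C₂) := by
        rw [← spn_add]
        exact spn_congr fun C₁ C₂ e1 hn1 => h3 C₁ C₂ e1 hn1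
      rw [h0]
      simp only [List.append_nil, zero_add, add_zero]
      rw [← h6]
      abel

end Pool.Agent.Helper11.CutIns
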